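import Pool.Agent.helper30.QP.SpecK

/-! Row YIN of project QP. -/

set_option autoImplicit false

open Polynomial Pool.Agent.helper7.IG

noncomputable section

namespace Pool.Agent.QP

lemma YIN_trans (R0 A1 : Subalgebra kk LL) (hA : ∀ a ∈ A1, IsIntegral R0 a) (x : LL)
    (hx : IsIntegral A1 x) : IsIntegral R0 x := by
  let φ : A1 →+* integralClosure R0 LL :=
    { toFun := fun a => ⟨(a : LL), hA a a.2⟩
      map_one' := rfl
      map_mul' := fun _ _ => rfl
      map_zero' := rfl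
      map_add' := fun _ _ => rfl }
  have h1 : IsIntegral (integralClosure R0 LL) (RingHom.id LL x) := by
    refine IsIntegral.map_of_comp_eq φ (RingHom.id LL) ?_ hx
    rfl
  exact isIntegral_trans (R := R0) (A := integralClosure R0 LL) x h1

lemma YIN_adj (R0 : Subalgebra kk LL) (d : LL) (hd : IsIntegral R0 d) :
    ∀ a ∈ Algebra.adjoin kk {d}, IsIntegral R0 a := by
  intro a ha
  have h1 : Algebra.adjoin kk {d} ≤ (integralClosure R0 LL).restrictScalars kk := by
    apply Algebra.adjoin_le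
    intro y hy
    rw [Set.mem_singleton_iff] at hy
    subst hy
    exact hd
  exact h1 ha

lemma YIN_nz (l B : ℕ) (hl : l.Prime) (hB : B ≠ 0) (u : Vx) (h : Nb l (B, 1) u) : u.1 ≠ 0 := by
  intro h0
  rcases h with ⟨h1, _⟩ | ⟨h1, _⟩
  · rw [h0] at h1
    exact (mul_ne_zero hl.ne_zero hB) h1.symm
  · rw [h0, mul_zero] at h1
    exact hB h1

theorem YIN (hANF : ANF_stmt) (hPNI : PNI_stmt) (hPNB : PNB_stmt) : YIN_stmt := by
  classical
  intro F Q M l B u hDen hl hl2 hBodd hlB
  have hB : B ≠ 0 := by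
    rintro rfl
    simp at hBodd
  obtain ⟨hmem, hcard⟩ := hANF l B hl hB
  obtain ⟨hD1, hD2⟩ := hDen
  have hnz : ∀ w ∈ AN l B, w.1 ≠ 0 := fun w hw => YIN_nz l B hl hB w ((hmem w).1 hw)
  set R0 : Subalgebra kk LL := Algebra.adjoin kk {sig B 1 DDk} with hR0
  have hint : ∀ w ∈ AN l B, IsIntegral R0 (sig w.1 w.2 DDk) := by
    intro w hw
    exact hPNI l (B, 1) w hl hl2 hB (hnz w hw) ((hmem w).1 hw)
  have hQB : IsIntegral R0 (aeval (sig B 1 DDk) Q) := by
    have h1 : aeval (sig B 1 DDk) Q ∈ R0 := aeval_mem_adjoin_singleton kk _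
    exact isIntegral_algebraMap (R := R0) (A := LL) (x := ⟨_, h1⟩)
  have hQFB : IsIntegral R0 (aeval (sig B 1 DDk) Q * sig B 1 F) := hD1 (B, 1) hB
  have hQ : ∀ w ∈ AN l B, IsIntegral R0 (aeval (sig w.1 w.2 DDk) Q) := by
    intro w hw
    exact YIN_adj R0 _ (hint w hw) _ (aeval_mem_adjoin_singleton kk _)
  have hQF : ∀ w ∈ AN l B, IsIntegral R0 (aeval (sig w.1 w.2 DDk) Q * sig w.1 w.2 F) := by
    intro w hw
    exact YIN_trans R0 _ (YIN_adj R0 _ (hint w hw)) _ (hD1 w (hnz w hw))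
  have hPI : IsIntegral R0 (PI0 Q l B) := by
    unfold PI0
    exact hQB.mul (IsIntegral.prod _ hQ)
  -- the decomposition
  have hsplit : ∀ w ∈ AN l B, PI0 Q l B * sig w.1 w.2 F =
      aeval (sig B 1 DDk) Q * ((∏ w' ∈ (AN l B).erase w, aeval (sig w'.1 w'.2 DDk) Q) *
        (aeval (sig w.1 w.2 DDk) Q * sig w.1 w.2 F)) := by
    intro w hw
    unfold PI0
    rw [← Finset.prod_erase_mul (AN l B) (fun w' : Vx => aeval (sig w'.1 w'.2 DDk) Q) hw]
    ring
  have hB0 : PI0 Q l B * sig B 1 F = (aeval (sig B 1 DDk) Q * sig B 1 F) *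
      ∏ w' ∈ AN l B, aeval (sig w'.1 w'.2 DDk) Q := by
    unfold PI0
    ring
  have hY : YU F Q l B u = PI0 Q l B * sig B 1 F +
      ∑ w ∈ (AN l B).erase u, PI0 Q l B * sig w.1 w.2 F := by
    unfold YU HU
    rw [mul_add, Finset.mul_sum]
  refine ⟨?_, hPI, ?_⟩
  · rw [hY]
    refine IsIntegral.add ?_ (IsIntegral.sum _ ?_)
    · rw [hB0]
      exact hQFB.mul (IsIntegral.prod _ hQ)
    · intro w hw
      have hw' : w ∈ AN l B := Finset.mem_of_mem_erase hw
      rw [hsplit w hw']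
      refine hQB.mul (IsIntegral.mul (IsIntegral.prod _ ?_) (hQF w hw'))
      intro w' hw2
      exact hQ w' (Finset.mem_of_mem_erase hw2)
  · intro V hV hnV
    set G : V.ValueGroup := V.valuation (sig B 1 DDk) with hG
    have hG1 : 1 < G := by
      by_contra hcon
      exact hnV ((V.valuation_le_one_iff _).1 (not_lt.1 hcon))
    have hvB := hD2 V (B, 1) G hB hV hG1.le le_rfl
    have hvw : ∀ w ∈ AN l B, V.valuation (sig w.1 w.2 DDk) ≤ G := by
      intro w hw
      have h1 := hPNB V hV l (B, 1) w hl hl2 hB (hnz w hw) ((hmem w).1 hw)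
      exact h1.trans (max_le le_rfl hG1.le)
    have hvw2 : ∀ w ∈ AN l B, V.valuation (aeval (sig w.1 w.2 DDk) Q) ≤ G ^ M ∧
        V.valuation (aeval (sig w.1 w.2 DDk) Q * sig w.1 w.2 F) ≤ G ^ M := by
      intro w hw
      exact hD2 V w G (hnz w hw) hV hG1.le (hvw w hw)
    have hprod : ∀ T ⊆ AN l B, V.valuation (∏ w' ∈ T, aeval (sig w'.1 w'.2 DDk) Q) ≤
        (G ^ M) ^ T.card := by
      intro T hT
      rw [map_prod]
      calc ∏ w' ∈ T, V.valuation (aeval (sig w'.1 w'.2 DDk) Q) ≤ ∏ _w' ∈ T, G ^ M :=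
            Finset.prod_le_prod' fun w' hw' => (hvw2 w' (hT hw')).1
        _ = (G ^ M) ^ T.card := by rw [Finset.prod_const]
    have hGM : 1 ≤ G ^ M := one_le_pow₀ hG1.le
    have hbig : ∀ k : ℕ, k ≤ l + 2 → (G ^ M) ^ k ≤ G ^ (M * (l + 2)) := by
      intro k hk
      rw [pow_mul]
      exact pow_le_pow_right₀ hGM hk
    rw [hY]
    refine le_trans (V.valuation.map_add _ _) (max_le ?_ ?_)
    · rw [hB0, map_mul]
      calc V.valuation (aeval (sig B 1 DDk) Q * sig B 1 F) *
            V.valuation (∏ w' ∈ AN l B, aeval (sig w'.1 w'.2 DDk) Q)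
          ≤ G ^ M * (G ^ M) ^ (AN l B).card := mul_le_mul' hvB.2 (hprod _ (Finset.Subset.refl _))
        _ = (G ^ M) ^ ((AN l B).card + 1) := by rw [pow_succ']
        _ ≤ G ^ (M * (l + 2)) := hbig _ (by omega)
    · refine V.valuation.map_sum_le ?_
      intro w hw
      have hw' : w ∈ AN l B := Finset.mem_of_mem_erase hw
      rw [hsplit w hw', map_mul, map_mul]
      have hc : ((AN l B).erase w).card ≤ (AN l B).card := Finset.card_le_card (Finset.erase_subset _ _)
      have hc2 : ((AN l B).erase w).card + 1 = (AN l B).card :=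
        Finset.card_erase_add_one hw'
      calc V.valuation (aeval (sig B 1 DDk) Q) *
            (V.valuation (∏ w' ∈ (AN l B).erase w, aeval (sig w'.1 w'.2 DDk) Q) *
              V.valuation (aeval (sig w.1 w.2 DDk) Q * sig w.1 w.2 F))
          ≤ G ^ M * ((G ^ M) ^ ((AN l B).erase w).card * G ^ M) :=
            mul_le_mul' hvB.1 (mul_le_mul' (hprod _ (Finset.erase_subset _ _)) (hvw2 w hw').2)
        _ = (G ^ M) ^ (((AN l B).erase w).card + 2) := by
            rw [← pow_succ, ← pow_succ']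
        _ ≤ G ^ (M * (l + 2)) := hbig _ (by omega)

end Pool.Agent.QP
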